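import Mathlib
import Pool.Agent.H857R3.MLS.Defs
import Pool.Agent.H857R3.MLS.Const

/-!
# MP_bada7b_pr: the modified log-Sobolev constant is not controlled by the entropy
hitting-time parameter, nor by the entropy mixing time

We disprove Q1: there is no absolute constant `C` such that `1 / c_MLS ≤ C ρ_ent` for every finite
irreducible reversible chain, and neither is there one with `1 / c_MLS ≤ C τ_ent`.  The result holds
whatever the constant `C_ent > 0` used in the definition of `ρ_ent` is.

The chain is a birth and death chain on `{0, ..., N}`: state `0` has mass close to `1`, state `j ≥ 1`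
has mass `exp (-2^N) 4^{-j}`, and from `j ≥ 1` the chain moves to `j - 1` with probability `4/5`.
The drift towards `0` brings the chain to equilibrium in time `O(N)`, while there is a density
living near the end `N` whose entropy is at least `2^N - 6` and whose entropy production is at
most `8`.
-/

set_option autoImplicit false

open Finset Matrix Pool.Agent.H857R3.MLS

namespace Pool.Agent.Results.MP_bada7b_pr.MLSvsHitting

/-- For every `C_ent > 0` and every real `C` there is a finite irreducible reversible chain with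
`C ρ_ent < 1 / c_MLS` and `C τ_ent < 1 / c_MLS` (and `c_MLS > 0`). -/
theorem result :
    ∀ Cent : ℝ, 0 < Cent → ∀ C : ℝ,
      ∃ (n : ℕ) (P : Matrix (Fin n) (Fin n) ℝ) (π : Fin n → ℝ),
        IsReversibleChain P π ∧ 0 < cMLS P π ∧
        C * rhoEnt Cent P π < 1 / cMLS P π ∧
        C * tauEnt P π < 1 / cMLS P π := by
  intro Cent hCent C
  set D : ℝ := max C 0 with hD
  have hD0 : 0 ≤ D := le_max_right _ _
  have hCD : C ≤ D := le_max_left _ _
  -- choice of the length
  have l1 : Filter.Tendsto (fun N : ℕ => 3 * (1 / 8 : ℝ) ^ N) Filter.atTop (nhds (3 * 0)) :=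
    (tendsto_pow_atTop_nhds_zero_of_lt_one (by norm_num) (by norm_num)).const_mul 3
  have l2 : Filter.Tendsto (fun N : ℕ => (N : ℝ) ^ 1 / 2 ^ N) Filter.atTop (nhds 0) :=
    tendsto_pow_const_div_const_pow_of_one_lt 1 (by norm_num)
  rw [mul_zero] at l1
  have e1 := l1.eventually (gt_mem_nhds hCent)
  have hpos : (0 : ℝ) < 1 / (320 * (D + 1)) := by positivity
  have e2 := l2.eventually (gt_mem_nhds hpos)
  obtain ⟨N, hN1, hN2, hN4⟩ := (e1.and (e2.and (Filter.eventually_ge_atTop 4))).exists
  have hN : 2 ≤ N := by omega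
  have hN3 : 3 ≤ N := by omega
  have h16 : (16 : ℝ) ≤ 2 ^ N := by
    calc (16 : ℝ) = 2 ^ 4 := by norm_num
      _ ≤ 2 ^ N := pow_le_pow_right₀ (by norm_num) hN4
  have hc0 := cMLS_pos hN
  have hc1 := cMLS_le hN3
  have hinv : (2 ^ N - 6) / 8 ≤ 1 / cMLS (Pool.Agent.H857R3.MLS.P N) (pi N) := by
    rw [le_div_iff₀ hc0]
    calc (2 ^ N - 6) / 8 * cMLS (Pool.Agent.H857R3.MLS.P N) (pi N)
        ≤ (2 ^ N - 6) / 8 * (8 / (2 ^ N - 6)) := mul_le_mul_of_nonneg_left hc1 (by linarith)
      _ = 1 := by
          have : (2 : ℝ) ^ N - 6 ≠ 0 := by linarith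
          field_simp
  have hbig : D * (20 * N) < (2 ^ N - 6) / 8 := by
    rw [pow_one, div_lt_div_iff₀ (by positivity) (by positivity)] at hN2
    have hN0 : (4 : ℝ) ≤ N := by exact_mod_cast hN4
    nlinarith
  have main : ∀ r : ℝ, 0 ≤ r → r ≤ 20 * N →
      C * r < 1 / cMLS (Pool.Agent.H857R3.MLS.P N) (pi N) := by
    intro r hr0 hr
    calc C * r ≤ D * r := mul_le_mul_of_nonneg_right hCD hr0
      _ ≤ D * (20 * N) := mul_le_mul_of_nonneg_left hr hD0
      _ < (2 ^ N - 6) / 8 := hbig
      _ ≤ _ := hinv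
  refine ⟨N + 1, Pool.Agent.H857R3.MLS.P N, pi N, chain hN, hc0, main _ ?_ (rhoEnt_le hN hN1.le),
    main _ ?_ (tauEnt_le hN)⟩
  · exact Real.iSup_nonneg fun x => Real.sInf_nonneg fun t ht => ht.1
  · exact Real.iSup_nonneg fun x => Real.sInf_nonneg fun t ht => ht.1

end Pool.Agent.Results.MP_bada7b_pr.MLSvsHitting
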